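import Pool.Agent.PStar.Final

set_option autoImplicit false
open Classical

namespace Pool.Agent.Results.MP_564742_co.ApexTreewidth

/-- The simple graph `G` has treewidth at most `k`: there are a finite tree `T` and, for each node
`i` of `T`, a finite set `bag i` of vertices of `G` with at most `k + 1` elements, such that every
vertex lies in some bag, the two ends of every edge lie in a common bag, and for every vertex the
nodes whose bags contain it induce a connected subgraph of `T`. -/
def TreewidthAtMost {Ω : Type} (G : SimpleGraph Ω) (k : ℕ) : Prop :=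
  ∃ (ι : Type) (_ : Fintype ι) (T : SimpleGraph ι) (bag : ι → Finset Ω), T.IsTree ∧
    (∀ v, ∃ i, v ∈ bag i) ∧ (∀ u v, G.Adj u v → ∃ i, u ∈ bag i ∧ v ∈ bag i) ∧
    (∀ v, (T.induce {i | v ∈ bag i}).Preconnected) ∧ ∀ i, (bag i).card ≤ k + 1

/-- Degree of the vertex `v` in the multigraph `f : E → Sym2 V` (the edge `e` has the two ends
in `f e`). -/
noncomputable def deg {V E : Type} [Fintype E] (f : E → Sym2 V) (v : V) : ℕ :=
  (Finset.univ.filter (fun e : E => v ∈ f e)).card

/-- `max(Δ, w)`, where `Δ` is the maximum degree and `w` is the maximum, over the sets `S` of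
vertices with `|S|` odd and at least `3`, of the least integer that is at least
`2|E(S)| / (|S| - 1)`; the expression is the one of the frozen statement S08823. -/
noncomputable def bound {V E : Type} [Fintype V] [Fintype E] (f : E → Sym2 V) : ℕ :=
  max (Finset.univ.sup (fun v : V => (Finset.univ.filter (fun e : E => v ∈ f e)).card))
    ((Finset.univ.filter (fun S : Finset V => Odd S.card ∧ 3 ≤ S.card)).sup
      (fun S => ⌈((2 * (Finset.univ.filter (fun e : E => ∀ v ∈ f e, v ∈ S)).card : ℕ) : ℚ)
                        / ((S.card : ℚ) - 1)⌉₊))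

/-- The underlying simple graph of the multigraph `f`, together with one new vertex `none` joined
to exactly the vertices `v` with `deg f v < bound f`. -/
noncomputable def apexGraph {V E : Type} [Fintype V] [Fintype E] (f : E → Sym2 V) :
    SimpleGraph (Option V) :=
  SimpleGraph.fromRel (fun a b =>
    (∃ u v : V, a = some u ∧ b = some v ∧ ∃ e, f e = s(u, v)) ∨
    (a = none ∧ ∃ v : V, b = some v ∧ deg f v < bound f))

/-- Let `G` be a finite loopless multigraph and `r = max(Δ(G), w(G))`.  If the graph obtained from
`G` by adding a new vertex joined to all vertices of degree less than `r` has treewidth at most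
three, then `G` has a proper edge colouring with `r` colours. -/
theorem result :
    ∀ (V E : Type) [Fintype V] [Fintype E] (f : E → Sym2 V),
      (∀ e, ¬ (f e).IsDiag) → TreewidthAtMost (apexGraph f) 3 →
      ∃ c : E → Fin (bound f),
        ∀ e₁ e₂ : E, e₁ ≠ e₂ → (∃ v, v ∈ f e₁ ∧ v ∈ f e₂) → c e₁ ≠ c e₂ := by
  intro V E _ _ f hl h
  exact PStar.exact_of_treewidth f hl h

end Pool.Agent.Results.MP_564742_co.ApexTreewidth
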