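import Pool.Agent.PStar.BT.Final

set_option autoImplicit false
open Classical

namespace Pool.Agent.Results.MP_564742_co.BipartitePlusAdjacent

/-- Let `G` be a finite loopless multigraph (the edge `e` has the two ends in `f e`), `F` a set of
edges any two of which have a common end, and `A` a set of vertices such that every edge outside
`F` has exactly one end in `A`.  Then `G` has a proper edge colouring with `max(Δ, w)` colours,
the number of colours being written exactly as in the frozen statement S08823. -/
theorem result :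
    ∀ (V E : Type) [Fintype V] [Fintype E] (f : E → Sym2 V),
      (∀ e, ¬ (f e).IsDiag) →
      (∃ (F : Set E) (A : Set V),
        (∀ e ∈ F, ∀ e' ∈ F, ∃ v, v ∈ f e ∧ v ∈ f e') ∧
        (∀ e, e ∉ F → ∃ x y, f e = s(x, y) ∧ x ∈ A ∧ y ∉ A)) →
      ∃ c : E → Fin (max
          (Finset.univ.sup (fun v : V => (Finset.univ.filter (fun e : E => v ∈ f e)).card))
          ((Finset.univ.filter (fun S : Finset V => Odd S.card ∧ 3 ≤ S.card)).sup
            (fun S => ⌈((2 * (Finset.univ.filter (fun e : E => ∀ v ∈ f e, v ∈ S)).card : ℕ) : ℚ)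
                        / ((S.card : ℚ) - 1)⌉₊))),
        ∀ e₁ e₂ : E, e₁ ≠ e₂ → (∃ v, v ∈ f e₁ ∧ v ∈ f e₂) → c e₁ ≠ c e₂ := by
  intro V E _ _ f hl ⟨F, A, hF, hA⟩
  exact PStar.exact_of_adjacentF f hl F A hF hA

end Pool.Agent.Results.MP_564742_co.BipartitePlusAdjacent
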