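import Pool.Agent.H42.LD.Main

set_option autoImplicit false
open Classical

namespace Pool.Agent.Results.MP_564742_co.LargeDegree

/-- Degree of the vertex `v` in the multigraph `f : E → Sym2 V` (the edge `e` has the two ends
in `f e`). -/
noncomputable def deg {V E : Type} [Fintype E] (f : E → Sym2 V) (v : V) : ℕ :=
  (Finset.univ.filter (fun e : E => v ∈ f e)).card

/-- Maximum degree. -/
noncomputable def maxDeg {V E : Type} [Fintype V] [Fintype E] (f : E → Sym2 V) : ℕ :=
  Finset.univ.sup (fun v : V => deg f v)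

/-- Number of edges with the two ends `x` and `y`. -/
noncomputable def mult {V E : Type} [Fintype E] (f : E → Sym2 V) (x y : V) : ℕ :=
  (Finset.univ.filter (fun e : E => f e = s(x, y))).card

/-- Number of edges between the vertex `x` and the set `S` of vertices. -/
noncomputable def toSet {V E : Type} [Fintype E] (f : E → Sym2 V) (x : V) (S : Finset V) : ℕ :=
  (Finset.univ.filter (fun e : E => ∃ z ∈ S, f e = s(x, z))).card

/-- The underlying simple graph is `D`-degenerate: every nonempty set `X` of vertices contains a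
vertex with at most `D` neighbours in `X`. -/
def Degenerate {V E : Type} (f : E → Sym2 V) (D : ℕ) : Prop :=
  ∀ X : Finset V, X.Nonempty → ∃ v ∈ X, (X.filter (fun u => ∃ e, f e = s(v, u))).card ≤ D

/-- There is a proper edge colouring with `k` colours. -/
def Colourable {V E : Type} (f : E → Sym2 V) (k : ℕ) : Prop :=
  ∃ c : E → Fin k, ∀ e₁ e₂ : E, e₁ ≠ e₂ → (∃ v, v ∈ f e₁ ∧ v ∈ f e₂) → c e₁ ≠ c e₂

/-- The multigraph has a minor isomorphic to the Petersen graph minus a vertex, exactly as in the
frozen statement S08823. -/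
def HasPStarMinor {V E : Type} (f : E → Sym2 V) : Prop :=
  ∃ B : {s : Finset (Fin 5) // s.card = 2 ∧ s ≠ {0, 1}} → Set V,
    (∀ i j, i ≠ j → Disjoint (B i) (B j)) ∧
    (∀ i, ((SimpleGraph.fromEdgeSet (Set.range f)).induce (B i)).Connected) ∧
    (∀ i j, Disjoint i.1 j.1 →
      ∃ (e : E) (x y : V), x ∈ B i ∧ y ∈ B j ∧ f e = s(x, y))

/-- (1) A finite loopless multigraph `G` without a minor isomorphic to the Petersen graph minus a
vertex, in which any two vertices are joined by at most `m` edges and which has maximum degree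
`Δ ≥ 47 m - 1`, has a proper edge colouring with `Δ` colours.
(2) Local form: if `G` has no such minor, `k ≥ Δ` and for all adjacent `x`, `y` and all sets `S`,
`T` of at most 23 vertices, the number of edges between `x` and `S`, plus the number of edges
between `y` and `T`, plus the number of edges between `x` and `y`, is at most `k + 1`, then `G`
has a proper edge colouring with `k` colours.
(3) and (4): for every `D ≥ 1` and every finite loopless multigraph with `D`-degenerate underlying
simple graph, (1) holds with `2 D + 1` in place of 47 and (2) holds with `D` in place of 23. -/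
theorem result :
    (∀ (V E : Type) [Fintype V] [Fintype E] (f : E → Sym2 V) (m : ℕ),
      (∀ e, ¬ (f e).IsDiag) → ¬ HasPStarMinor f →
      (∀ x y : V, x ≠ y → mult f x y ≤ m) → 47 * m ≤ maxDeg f + 1 →
      Colourable f (maxDeg f)) ∧
    (∀ (V E : Type) [Fintype V] [Fintype E] (f : E → Sym2 V) (k : ℕ),
      (∀ e, ¬ (f e).IsDiag) → ¬ HasPStarMinor f → maxDeg f ≤ k →
      (∀ (e : E) (x y : V), f e = s(x, y) → ∀ S T : Finset V, S.card ≤ 23 → T.card ≤ 23 →
        toSet f x S + toSet f y T + mult f x y ≤ k + 1) →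
      Colourable f k) ∧
    (∀ (V E : Type) [Fintype V] [Fintype E] (f : E → Sym2 V) (m D : ℕ), 1 ≤ D →
      (∀ e, ¬ (f e).IsDiag) → Degenerate f D →
      (∀ x y : V, x ≠ y → mult f x y ≤ m) → (2 * D + 1) * m ≤ maxDeg f + 1 →
      Colourable f (maxDeg f)) ∧
    (∀ (V E : Type) [Fintype V] [Fintype E] (f : E → Sym2 V) (k D : ℕ), 1 ≤ D →
      (∀ e, ¬ (f e).IsDiag) → Degenerate f D → maxDeg f ≤ k →
      (∀ (e : E) (x y : V), f e = s(x, y) → ∀ S T : Finset V, S.card ≤ D → T.card ≤ D →
        toSet f x S + toSet f y T + mult f x y ≤ k + 1) →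
      Colourable f k) := by
  have hmax : ∀ (V E : Type) [Fintype V] [Fintype E] (f : E → Sym2 V) (k : ℕ), maxDeg f ≤ k →
      ∀ v, deg f v ≤ k := fun V E _ _ f k h v =>
    (Finset.le_sup (f := fun v : V => deg f v) (Finset.mem_univ v)).trans h
  have hdec : ∀ (V E : Type) [Fintype V] [Fintype E] (f : E → Sym2 V) (D : ℕ), Degenerate f D →
      ∀ X : Finset V, X.Nonempty → ∃ v ∈ X, (X.filter (fun u => ∃ e, f e = s(v, u))).card ≤ D := by
    intro V E _ _ f D h X hX
    obtain ⟨v, hv, hvc⟩ := h X hX
    exact ⟨v, hv, by convert hvc⟩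
  refine ⟨?_, ?_, ?_, ?_⟩
  · intro V E _ _ f m hl hP hm hk
    exact Pool.Agent.H42.LD.large_deg f hl (maxDeg f) 23 m (by norm_num)
      (hdec V E f 23 (Pool.Agent.H42.LD.pstar_degenerate f hl hP)) (hmax V E f _ le_rfl) hm hk
  · intro V E _ _ f k hl hP hk hloc
    exact Pool.Agent.H42.LD.local_sym f hl k 23 (by norm_num)
      (hdec V E f 23 (Pool.Agent.H42.LD.pstar_degenerate f hl hP)) (hmax V E f k hk) hloc
  · intro V E _ _ f m D hD hl hdg hm hk
    exact Pool.Agent.H42.LD.large_deg f hl (maxDeg f) D m hD (hdec V E f D hdg)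
      (hmax V E f _ le_rfl) hm hk
  · intro V E _ _ f k D hD hl hdg hk hloc
    exact Pool.Agent.H42.LD.local_sym f hl k D hD (hdec V E f D hdg) (hmax V E f k hk) hloc

end Pool.Agent.Results.MP_564742_co.LargeDegree
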