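import Pool.Agent.PStar.VC.Final

set_option autoImplicit false
open Classical

namespace Pool.Agent.Results.MP_564742_co.VertexCoverFour

/-- Let `G` be a finite loopless multigraph (the edge `e` has the two ends in `f e`) with a set
`S` of at most four vertices such that every edge has an end in `S`.  Then `G` has a proper edge
colouring with `max(Δ, w)` colours, the number of colours being written exactly as in the frozen
statement S08823. -/
theorem result :
    ∀ (V E : Type) [Fintype V] [Fintype E] (f : E → Sym2 V),
      (∀ e, ¬ (f e).IsDiag) →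
      (∃ S : Finset V, S.card ≤ 4 ∧ ∀ e, ∃ v ∈ S, v ∈ f e) →
      ∃ c : E → Fin (max
          (Finset.univ.sup (fun v : V => (Finset.univ.filter (fun e : E => v ∈ f e)).card))
          ((Finset.univ.filter (fun S : Finset V => Odd S.card ∧ 3 ≤ S.card)).sup
            (fun S => ⌈((2 * (Finset.univ.filter (fun e : E => ∀ v ∈ f e, v ∈ S)).card : ℕ) : ℚ)
                        / ((S.card : ℚ) - 1)⌉₊))),
        ∀ e₁ e₂ : E, e₁ ≠ e₂ → (∃ v, v ∈ f e₁ ∧ v ∈ f e₂) → c e₁ ≠ c e₂ := by
  intro V E _ _ f hl ⟨S, hS, hcov⟩
  exact PStar.exact_of_cover f hl S hS hcov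

end Pool.Agent.Results.MP_564742_co.VertexCoverFour
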